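import Pool.Agent.H75.OM.TA

/-! row COM of the board omn_modules (MP_0f8dca_lc): merging the rounds of a random restriction -/

set_option autoImplicit false

namespace Pool.Agent.H97.OM

open Finset Pool.Agent.H75.OM
open Pool.Agent.H68.AC (PA Wt fd mrg w1 wt)

/-- the merge of two entries -/
def mg (a b : Option Bool) : Option Bool :=
  match a with
  | some c => some c
  | none => b

theorem one_var (q q' : ℝ) (m : Option Bool) :
    ∑ a : Option Bool, ∑ b : Option Bool,
      (if mg a b = m then w1 q (1 / 2) a * w1 q' (1 / 2) b else 0) = w1 (q * q') (1 / 2) m := by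
  rcases m with _ | c
  · simp [Fintype.sum_option, mg, w1]
  · rcases c with _ | _
    · simp [Fintype.sum_option, mg, w1]
      ring
    · simp [Fintype.sum_option, mg, w1]
      ring

theorem two {V : Type} [Fintype V] [DecidableEq V] (Φ : PA V → ℝ) (q q' : ℝ) :
    ∑ κ : PA V, wt q (1 / 2) κ * (∑ κ' : PA V, wt q' (1 / 2) κ' * Φ (mrg κ κ')) =
      ∑ μ : PA V, wt (q * q') (1 / 2) μ * Φ μ := by
  have h1 : ∀ μ : PA V, wt (q * q') (1 / 2) μ = ∑ κ : PA V, ∑ κ' : PA V,
      if mrg κ κ' = μ then wt q (1 / 2) κ * wt q' (1 / 2) κ' else 0 := by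
    intro μ
    have h2 : wt (q * q') (1 / 2) μ = ∏ v, ∑ a : Option Bool, ∑ b : Option Bool,
        (if mg a b = μ v then w1 q (1 / 2) a * w1 q' (1 / 2) b else 0) := by
      unfold wt
      exact prod_congr rfl fun v _ => (one_var q q' (μ v)).symm
    rw [h2, Finset.prod_univ_sum, Fintype.piFinset_univ]
    refine sum_congr rfl fun κ _ => ?_
    rw [Finset.prod_univ_sum, Fintype.piFinset_univ]
    refine sum_congr rfl fun κ' _ => ?_
    by_cases h : mrg κ κ' = μ
    · rw [if_pos h]
      unfold wt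
      rw [← prod_mul_distrib]
      refine prod_congr rfl fun v _ => ?_
      have h3 : mg (κ v) (κ' v) = μ v := by
        rw [← h]
        rfl
      rw [if_pos h3]
    · rw [if_neg h]
      obtain ⟨v, hv⟩ := Function.ne_iff.1 h
      refine prod_eq_zero (mem_univ v) ?_
      have h3 : ¬ mg (κ v) (κ' v) = μ v := hv
      rw [if_neg h3]
  calc ∑ κ : PA V, wt q (1 / 2) κ * (∑ κ' : PA V, wt q' (1 / 2) κ' * Φ (mrg κ κ'))
      = ∑ κ : PA V, ∑ κ' : PA V, ∑ μ : PA V,
        (if mrg κ κ' = μ then wt q (1 / 2) κ * wt q' (1 / 2) κ' else 0) * Φ μ := by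
        refine sum_congr rfl fun κ _ => ?_
        rw [mul_sum]
        refine sum_congr rfl fun κ' _ => ?_
        rw [sum_eq_single (mrg κ κ')]
        · rw [if_pos rfl]
          ring
        · intro μ _ hμ
          rw [if_neg (fun h => hμ h.symm), zero_mul]
        · intro h
          exact absurd (mem_univ _) h
    _ = ∑ μ : PA V, (∑ κ : PA V, ∑ κ' : PA V,
        if mrg κ κ' = μ then wt q (1 / 2) κ * wt q' (1 / 2) κ' else 0) * Φ μ := by
        have h4 : ∀ κ : PA V, ∑ κ' : PA V, ∑ μ : PA V,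
            (if mrg κ κ' = μ then wt q (1 / 2) κ * wt q' (1 / 2) κ' else 0) * Φ μ =
            ∑ μ : PA V, ∑ κ' : PA V,
            (if mrg κ κ' = μ then wt q (1 / 2) κ * wt q' (1 / 2) κ' else 0) * Φ μ :=
          fun κ => sum_comm
        rw [sum_congr rfl (fun κ _ => h4 κ), sum_comm]
        refine sum_congr rfl fun μ _ => ?_
        rw [sum_mul]
        refine sum_congr rfl fun κ _ => ?_
        rw [sum_mul]
    _ = _ := sum_congr rfl fun μ _ => by rw [← h1 μ]

theorem fd_one {V : Type} (R : Fin 1 → PA V) : fd R 1 = R 0 := by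
  funext v
  rfl

theorem sum_one {V : Type} [Fintype V] [DecidableEq V] (Φ : PA V → ℝ) (q : ℝ) :
    ∑ R : Fin 1 → PA V, Wt q (1 / 2) R * Φ (fd R 1) = ∑ κ : PA V, wt q (1 / 2) κ * Φ κ := by
  refine Fintype.sum_equiv (Equiv.funUnique (Fin 1) (PA V)) _ _ fun R => ?_
  rw [fd_one]
  unfold Wt
  rw [Fin.prod_univ_one]
  rfl

theorem fd_cast {V : Type} {d : ℕ} (R : Fin (d + 1) → PA V) :
    ∀ j, j ≤ d → fd R j = fd (fun i : Fin d => R (Fin.castSucc i)) j := by
  intro j
  induction j with
  | zero => intro _; rfl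
  | succ j ih =>
    intro hj
    have h1 : j < d := by omega
    have h2 : j < d + 1 := by omega
    show mrg (fd R j) (fun v => if h : j < d + 1 then R ⟨j, h⟩ v else none) =
      mrg (fd (fun i : Fin d => R (Fin.castSucc i)) j)
        (fun v => if h : j < d then R (Fin.castSucc ⟨j, h⟩) v else none)
    rw [ih (by omega)]
    congr 1
    funext v
    rw [dif_pos h1, dif_pos h2]
    rfl

theorem fd_last {V : Type} {d : ℕ} (R : Fin (d + 1) → PA V) :
    fd R (d + 1) = mrg (fd (fun i : Fin d => R (Fin.castSucc i)) d) (R (Fin.last d)) := by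
  show mrg (fd R d) (fun v => if h : d < d + 1 then R ⟨d, h⟩ v else none) = _
  rw [fd_cast R d le_rfl]
  congr 1
  funext v
  rw [dif_pos (Nat.lt_succ_self d)]
  rfl

theorem rounds {V : Type} [Fintype V] [DecidableEq V] (q : ℝ) :
    ∀ (d : ℕ) (Φ : PA V → ℝ), ∑ R : Fin d → PA V, Wt q (1 / 2) R * Φ (fd R d) =
      ∑ κ : PA V, wt (q ^ d) (1 / 2) κ * Φ κ := by
  intro d
  induction d with
  | zero =>
    intro Φ
    rw [Fintype.sum_unique, pow_zero]
    rw [sum_eq_single (fun _ => none : PA V)]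
    · have h1 : wt (1 : ℝ) (1 / 2) (fun _ => none : PA V) = 1 := by
        unfold wt
        simp [w1]
      rw [h1]
      unfold Wt
      simp only [univ_eq_empty, prod_empty]
      rfl
    · intro κ _ hκ
      obtain ⟨v, hv⟩ := Function.ne_iff.1 hκ
      have h2 : wt (1 : ℝ) (1 / 2) κ = 0 := by
        unfold wt
        refine prod_eq_zero (mem_univ v) ?_
        rcases h : κ v with _ | c
        · exact absurd h hv
        · rcases c with _ | _ <;> simp [w1]
      rw [h2, zero_mul]
    · intro h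
      exact absurd (mem_univ _) h
  | succ d ih =>
    intro Φ
    have h1 : ∑ R : Fin (d + 1) → PA V, Wt q (1 / 2) R * Φ (fd R (d + 1)) =
        ∑ x : PA V × (Fin d → PA V), Wt q (1 / 2) x.2 *
          (wt q (1 / 2) x.1 * Φ (mrg (fd x.2 d) x.1)) := by
      symm
      refine Fintype.sum_equiv (Fin.snocEquiv fun _ : Fin (d + 1) => PA V) _ _ fun x => ?_
      have h2 : ∀ i : Fin d, (Fin.snocEquiv fun _ : Fin (d + 1) => PA V) x (Fin.castSucc i) =
          x.2 i := fun i => Fin.snoc_castSucc (α := fun _ : Fin (d + 1) => PA V) x.1 x.2 i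
      have h3 : (Fin.snocEquiv fun _ : Fin (d + 1) => PA V) x (Fin.last d) = x.1 :=
        Fin.snoc_last (α := fun _ : Fin (d + 1) => PA V) x.1 x.2
      rw [fd_last]
      unfold Wt
      rw [Fin.prod_univ_castSucc, h3]
      have h4 : (fun i : Fin d => (Fin.snocEquiv fun _ : Fin (d + 1) => PA V) x
          (Fin.castSucc i)) = x.2 := funext h2
      rw [h4]
      simp only [h2]
      ring
    rw [h1, Fintype.sum_prod_type_right]
    have h5 : ∀ R' : Fin d → PA V, ∑ κ : PA V, Wt q (1 / 2) R' *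
        (wt q (1 / 2) κ * Φ (mrg (fd R' d) κ)) = Wt q (1 / 2) R' *
        (fun μ => ∑ κ : PA V, wt q (1 / 2) κ * Φ (mrg μ κ)) (fd R' d) := by
      intro R'
      rw [← mul_sum]
    rw [sum_congr rfl (fun R' _ => h5 R'),
      ih (fun μ => ∑ κ : PA V, wt q (1 / 2) κ * Φ (mrg μ κ)), two, pow_succ]

theorem pf_COM : T_COM := by
  intro V _ _ Φ
  refine ⟨fun d q => ?_, fun q q' => ?_⟩
  · rw [rounds, sum_one]
  · rw [sum_one (fun κ => ∑ R' : Fin 1 → PA V, Wt q' (1 / 2) R' * Φ (mrg κ (fd R' 1))) q,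
      sum_one, ← two]
    refine sum_congr rfl fun κ _ => ?_
    rw [sum_one (fun κ' => Φ (mrg κ κ')) q']

end Pool.Agent.H97.OM
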